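import Mathlib
import Pool.Agent.K9h54.TF.Tri

/-!
# One more prime is free: from the pairs of any fixed even distance to the triples

For every `ε > 0` there is a `w` (it can be taken as large as we like) such that for every `C` and all large `x` the
following holds, with `W` the product of the primes up to `w`.

Let `d'` be ANY even number, `2 ≤ d' ≤ x`, let `A` be ANY set of primes `p ≤ x` for which `p - d'` is prime, let `b` be
any residue class modulo `W` with `W ∣ b (b - d')` (for example the multiples of `W`), and let `(u, u + H]` be any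
window with `H ≥ x / (log x) ^ C` and `u + H ≤ x / (log x) ^ 2`. Then for all but at most `ε H / W` of the `d` of the
class in the window (there are about `H / W` of them) the normalised count

`#{p ∈ A : p - d prime} (log x) ^ 3 / (S(0, d', d) x)`

of the triples of `A` differs by at most `ε` from the normalised count `#A (log x) ^ 2 / (S(0, d') x)` of the pairs.

If `A` is the set of all prime pairs, then these are the `R(x; d', d)` of the question and the corresponding
`R(x; d')` for the pairs, so `R(x; d', d) = R(x; d') + o(1)` for every even `d'` and almost all such `d`, although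
nothing is known about `R(x; d')` for a given `d'`.

Proof: Vinogradov's and Page's theorems (`Λ` is close to the indicator function of the numbers without small prime
factors on all arcs, with a saving of any power of `log x`), the upper bound sieve for the pairs in progressions, and
the variance over the shifts `d` of the number of the `p ∈ A` for which `p - d` is free of the primes between `w` and
the sieving limit.
-/

set_option autoImplicit false

namespace Pool.Agent.Results.MP_1039f5_nt.OneMorePrimeIsFree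

open Finset

/-- the singular series of `{0, d', d}` -/
noncomputable def S3 (d' d : ℕ) : ℝ := ∏' p : Nat.Primes,
  ((1 - ((((({0, d', d} : Finset ℕ).image (fun n => n % (p : ℕ))).card : ℕ) : ℝ) / ((p : ℕ) : ℝ)))
    / (1 - 1 / ((p : ℕ) : ℝ)) ^ 3)

/-- the singular series of `{0, d'}` -/
noncomputable def S2 (d' : ℕ) : ℝ := ∏' p : Nat.Primes,
  ((1 - ((((({0, d'} : Finset ℕ).image (fun n => n % (p : ℕ))).card : ℕ) : ℝ) / ((p : ℕ) : ℝ)))
    / (1 - 1 / ((p : ℕ) : ℝ)) ^ 2)

/-- the primes `p ≤ x` with `p - d'` prime -/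
def pairs (x d' : ℕ) : Finset ℕ := (range (x + 1)).filter (fun p => p.Prime ∧ (p - d').Prime)

/-- the normalised count of the triples `p, p - d', p - d` with `p` in a set `A` of prime pairs `p, p - d'`; for
`A = pairs x d'` this is the `R(x; d', d)` of the question -/
noncomputable def R3 (x d' : ℕ) (A : Finset ℕ) (d : ℕ) : ℝ :=
  ((A.filter (fun p => (p - d).Prime)).card : ℝ) * Real.log x ^ 3 / (S3 d' d * x)

/-- the normalised count of the pairs `p, p - d'` with `p` in a set `A` of prime pairs -/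
noncomputable def R2 (x d' : ℕ) (A : Finset ℕ) : ℝ := (A.card : ℝ) * Real.log x ^ 2 / (S2 d' * x)

/-- the product of the primes up to `w` -/
def W (w : ℕ) : ℕ := ∏ q ∈ (Icc 1 w).filter Nat.Prime, q

open Classical in
/-- **One more prime is free.** -/
theorem result (ε : ℝ) (hε : 0 < ε) (w0 : ℕ) : ∃ w ≥ w0, ∀ C : ℕ, ∃ x0 : ℕ, ∀ x ≥ x0,
    ∀ d' : ℕ, Even d' → 2 ≤ d' → d' ≤ x → ∀ A ⊆ pairs x d', ∀ b : ℕ, (W w : ℤ) ∣ (b : ℤ) * ((b : ℤ) - d') →
      ∀ u H : ℕ, (x : ℝ) ≤ H * Real.log x ^ C → ((u + H : ℕ) : ℝ) * Real.log x ^ 2 ≤ x →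
      (((Ioc u (u + H)).filter (fun d => d % W w = b % W w ∧ d ≠ d' ∧
        ¬ (0 < S3 d' d ∧ |R3 x d' A d - R2 x d' A| ≤ ε))).card : ℝ) ≤ ε * (H / W w) := by
  obtain ⟨C5, hC5, h⟩ := Pool.Agent.K9h54.TF.fin2 2 (by norm_num)
  obtain ⟨w, hw, h⟩ := h ε hε w0
  refine ⟨w, hw, fun C => ?_⟩
  obtain ⟨x1, h⟩ := h C
  refine ⟨x1, fun x hx d' he h2 hd'x A hA b hb u H hH huH => ?_⟩
  have hA1 : A ⊆ Icc 1 x := by
    intro n hn
    have g1 := mem_filter.1 (hA hn)
    have g2 := mem_range.1 g1.1
    rw [mem_Icc]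
    exact ⟨g1.2.1.pos, by omega⟩
  obtain ⟨_, h3⟩ := h x hx {0, d'} (card_pair (by omega)) (Pool.Agent.K9h54.TF.adm_pair he)
    (by simpa using hd'x) A hA1 (by
      intro n hn h hh
      have g1 := (mem_filter.1 (hA hn)).2
      rw [mem_insert, mem_singleton] at hh
      rcases hh with rfl | rfl
      · rw [Nat.sub_zero]
        exact g1.1
      · exact g1.2)
  obtain ⟨h5, h6⟩ := h3 u H b (Pool.Agent.K9h54.TF.cov_pair hb) hH huH
  have hcard : ∀ d, d ≠ 0 → d ≠ d' → (insert d ({0, d'} : Finset ℕ)).card = 3 := by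
    intro d hd0 hdd
    rw [card_insert_of_notMem (by simp [hd0, hdd]), card_pair (by omega)]
  have hset : ∀ d, ({0, d', d} : Finset ℕ) = insert d ({0, d'} : Finset ℕ) := by
    intro d
    ext a
    simp only [mem_insert, mem_singleton]
    tauto
  have hS3 : ∀ d, d ≠ 0 → d ≠ d' → S3 d' d = Pool.Agent.H387R2.Uni.CT (insert d ({0, d'} : Finset ℕ)) := by
    intro d hd0 hdd
    unfold S3 Pool.Agent.H387R2.Uni.CT Pool.Agent.H387R2.Uni.locT Pool.Agent.H387R2.Uni.nuT
    rw [hcard d hd0 hdd, hset d]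
  have hS2 : S2 d' = Pool.Agent.H387R2.Uni.CT ({0, d'} : Finset ℕ) := by
    unfold S2 Pool.Agent.H387R2.Uni.CT Pool.Agent.H387R2.Uni.locT Pool.Agent.H387R2.Uni.nuT
    rw [card_pair (by omega)]
  refine le_trans ?_ h6
  have hsub : (Ioc u (u + H)).filter (fun d => d % W w = b % W w ∧ d ≠ d' ∧
        ¬ (0 < S3 d' d ∧ |R3 x d' A d - R2 x d' A| ≤ ε)) ⊆
      (Ioc u (u + H)).filter (fun d : ℕ => d % (∏ q ∈ Pool.Agent.H373R2.T7.pz w, q) =
        b % (∏ q ∈ Pool.Agent.H373R2.T7.pz w, q) ∧ d ∉ ({0, d'} : Finset ℕ) ∧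
        ε < |((A.filter (fun n : ℕ => (n - d).Prime)).card : ℝ) * Real.log x ^ (2 + 1) /
          (Pool.Agent.H387R2.Uni.CT (insert d ({0, d'} : Finset ℕ)) * x) -
          (A.card : ℝ) * Real.log x ^ 2 / (Pool.Agent.H387R2.Uni.CT ({0, d'} : Finset ℕ) * x)|) := by
    intro d hd
    rw [mem_filter] at hd ⊢
    obtain ⟨g1, g2, g3, g4⟩ := hd
    have g5 := (mem_Ioc.1 g1).1
    refine ⟨g1, g2, by simp only [mem_insert, mem_singleton]; omega, ?_⟩
    rw [hS3 d (by omega) g3] at g4
    unfold R3 R2 at g4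
    rw [hS3 d (by omega) g3, hS2] at g4
    by_contra g6
    exact g4 ⟨h5 d g1 g2, not_lt.1 g6⟩
  exact_mod_cast card_le_card hsub

end Pool.Agent.Results.MP_1039f5_nt.OneMorePrimeIsFree
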