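import Mathlib
import Pool.Agent.K9h54.TF.Tri
import Pool.Agent.K9h59.OM.Dn2

/-!
# Pairs to triples when the new shift has random digits

The base `b ≥ 2`, the number `H` of the possible digits, `η, ε > 0` and `D` are fixed. Let `w` be large, let `W` be the
product of the primes up to `w` and let `k` be large. Let `ξ_0, …, ξ_{k-1}` be ANY independent random digits in
`{0, …, H - 1}`, of arbitrary laws, with the only condition that for `j ≤ k - D log k` no value has probability larger
than `1 - η` (the `D log k` highest digits can be constant). Let `c ≥ 0` be an integer and consider the random shift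

`d = c + W (ξ_0 + ξ_1 b + ⋯ + ξ_{k-1} b ^ (k-1))`.

For example, `d` can be `W` times a random number whose digits in the base `b` are zeros and ones: then `d` is
restricted to a set of at most `2 ^ k` integers, which is at most `x ^ δ` for any given `δ > 0` if `b` is large.

Let `x` be an integer with `b ^ k / k ^ D ≤ x ≤ D b ^ k`, let `d'` be ANY even number, `2 ≤ d' ≤ x`, such that
`W ∣ c (c - d')` (for example `c = 0`), let `A` be ANY set of primes `p ≤ x` for which `p - d'` is prime, and assume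
that the values of `d` are at most `x / (log x) ^ 2`. Then, with probability at least `1 - ε`, the singular series
`S(0, d', d)` is positive and the normalised count

`#{p ∈ A : p - d prime} (log x) ^ 3 / (S(0, d', d) x)`

of the triples of `A` differs by at most `ε` from the normalised count `#A (log x) ^ 2 / (S(0, d') x)` of the pairs.

If `A` is the set of all prime pairs then these are the `R(x; d', d)` of the question and the corresponding `R(x; d')`:
for every even `d'`, `R(x; d', d) = R(x; d') + o(1)` in probability, although nothing is known about `R(x; d')`.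

Proof: the exponential sums of such a random `d` are large only on a thin set, where the von Mangoldt function minus
its sieve model is small by Vinogradov's and Page's theorems; so that the primes in `A - d` can be replaced by the
integers without small prime factors on average over the digits. These are counted for most `d` by a second moment,
for which the residues of `d` modulo all moduli up to `exp (C (log k) ^ 2)` are shown to be uniformly distributed and
Brun's sieve is used.
-/

set_option autoImplicit false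

namespace Pool.Agent.Results.MP_1039f5_nt.RandomDigitShifts

open Finset

/-- the singular series of `{0, d', d}` -/
noncomputable def S3 (d' d : ℕ) : ℝ := ∏' p : Nat.Primes,
  ((1 - ((((({0, d', d} : Finset ℕ).image (fun n => n % (p : ℕ))).card : ℕ) : ℝ) / ((p : ℕ) : ℝ)))
    / (1 - 1 / ((p : ℕ) : ℝ)) ^ 3)

/-- the singular series of `{0, d'}` -/
noncomputable def S2 (d' : ℕ) : ℝ := ∏' p : Nat.Primes,
  ((1 - ((((({0, d'} : Finset ℕ).image (fun n => n % (p : ℕ))).card : ℕ) : ℝ) / ((p : ℕ) : ℝ)))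
    / (1 - 1 / ((p : ℕ) : ℝ)) ^ 2)

/-- the primes `p ≤ x` with `p - d'` prime -/
def pairs (x d' : ℕ) : Finset ℕ := (range (x + 1)).filter (fun p => p.Prime ∧ (p - d').Prime)

/-- the normalised count of the triples `p, p - d', p - d` with `p` in a set `A` of prime pairs `p, p - d'`; for
`A = pairs x d'` this is the `R(x; d', d)` of the question -/
noncomputable def R3 (x d' : ℕ) (A : Finset ℕ) (d : ℕ) : ℝ :=
  ((A.filter (fun p => (p - d).Prime)).card : ℝ) * Real.log x ^ 3 / (S3 d' d * x)

/-- the normalised count of the pairs `p, p - d'` with `p` in a set `A` of prime pairs -/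
noncomputable def R2 (x d' : ℕ) (A : Finset ℕ) : ℝ := (A.card : ℝ) * Real.log x ^ 2 / (S2 d' * x)

/-- the product of the primes up to `w` -/
def W (w : ℕ) : ℕ := ∏ q ∈ (Icc 1 w).filter Nat.Prime, q

/-- the laws of the `k` random digits: the `j`-th digit takes the values `a ∈ σ j` with the probabilities `P j a`; the
digits are smaller than `H`, and none but the `D log k` highest ones takes a value with a probability above `1 - η` -/
structure Laws (H k D : ℕ) (η : ℝ) (σ : ℕ → Finset ℕ) (P : ℕ → ℕ → ℝ) : Prop where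
  digit : ∀ j < k, ∀ a ∈ σ j, a < H ∧ 0 ≤ P j a
  total : ∀ j < k, ∑ a ∈ σ j, P j a = 1
  spread : ∀ j < k, (j : ℝ) + D * Real.log k ≤ k → ∀ a ∈ σ j, P j a ≤ 1 - η

/-- the shift `c + W (ξ_0 + ξ_1 b + ⋯ + ξ_{k-1} b ^ (k-1))` -/
def shift (b w c : ℕ) {k : ℕ} (ξ : Fin k → ℕ) : ℕ := c + W w * ∑ j : Fin k, b ^ (j : ℕ) * ξ j

open Classical in
/-- the probability of an event, for independent digits with the given laws -/
noncomputable def Prob {k : ℕ} (σ : ℕ → Finset ℕ) (P : ℕ → ℕ → ℝ) (E : (Fin k → ℕ) → Prop) : ℝ :=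
  ∑ ξ ∈ (Fintype.piFinset (fun j : Fin k => σ j)).filter E, ∏ j : Fin k, P j (ξ j)

/-- **From the pairs to the triples, for shifts with random digits.** -/
theorem result (b H D : ℕ) (hb : 2 ≤ b) (η ε : ℝ) (hη : 0 < η) (hε : 0 < ε) : ∃ w0 : ℕ, ∀ w ≥ w0, ∃ k0 : ℕ, ∀ k ≥ k0,
    ∀ (σ : ℕ → Finset ℕ) (P : ℕ → ℕ → ℝ), Laws H k D η σ P → ∀ x : ℕ, b ^ k ≤ k ^ D * x → x ≤ D * b ^ k →
    ∀ d' : ℕ, Even d' → 2 ≤ d' → d' ≤ x → ∀ A ⊆ pairs x d', ∀ c : ℕ, (W w : ℤ) ∣ (c : ℤ) * ((c : ℤ) - d') →
    (∀ ξ ∈ Fintype.piFinset (fun j : Fin k => σ j), (shift b w c ξ : ℝ) * Real.log x ^ 2 ≤ x) →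
      1 - ε ≤ Prob σ P (fun ξ : Fin k → ℕ => 0 < S3 d' (shift b w c ξ) ∧
        |R3 x d' A (shift b w c ξ) - R2 x d' A| ≤ ε) := by
  classical
  obtain ⟨w0, h⟩ := Pool.Agent.K9h59.OM.fdn 2 (by norm_num) b H D D hb η hη ε hε
  refine ⟨w0, fun w hw => ?_⟩
  obtain ⟨k0, h⟩ := h w hw
  refine ⟨k0, fun k hk σ P hL x hx1 hx2 d' he h2 hd'x A hA c hc hr => ?_⟩
  have hD : Pool.Agent.K9h59.OM.Dig H k D η σ P := ⟨hL.digit, hL.total, hL.spread⟩
  have hA1 : A ⊆ Icc 1 x := by
    intro n hn
    have g1 := mem_filter.1 (hA hn)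
    have g2 := mem_range.1 g1.1
    rw [mem_Icc]
    exact ⟨g1.2.1.pos, by omega⟩
  have h3 := h k hk σ P hD x hx1 hx2 {0, d'} (card_pair (by omega)) (Pool.Agent.K9h54.TF.adm_pair he)
    (by simpa using hd'x) A hA1 (by
      intro n hn h hh
      have g1 := (mem_filter.1 (hA hn)).2
      rw [mem_insert, mem_singleton] at hh
      rcases hh with rfl | rfl
      · rw [Nat.sub_zero]
        exact g1.1
      · exact g1.2) c hr (Pool.Agent.K9h54.TF.cov_pair hc)
  have hsh : ∀ ξ : Fin k → ℕ, c + (∏ q ∈ Pool.Agent.H373R2.T7.pz w, q) * Pool.Agent.K9h59.OM.val b ξ = shift b w c ξ :=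
    fun ξ => rfl
  simp only [hsh] at h3
  have hcard : ∀ d, d ≠ 0 → d ≠ d' → (insert d ({0, d'} : Finset ℕ)).card = 3 := by
    intro d hd0 hdd
    rw [card_insert_of_notMem (by simp [hd0, hdd]), card_pair (by omega)]
  have hset : ∀ d, ({0, d', d} : Finset ℕ) = insert d ({0, d'} : Finset ℕ) := by
    intro d
    ext a
    simp only [mem_insert, mem_singleton]
    tauto
  have hS3 : ∀ d, d ≠ 0 → d ≠ d' → S3 d' d = Pool.Agent.H387R2.Uni.CT (insert d ({0, d'} : Finset ℕ)) := by
    intro d hd0 hdd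
    unfold S3 Pool.Agent.H387R2.Uni.CT Pool.Agent.H387R2.Uni.locT Pool.Agent.H387R2.Uni.nuT
    rw [hcard d hd0 hdd, hset d]
  have hS2 : S2 d' = Pool.Agent.H387R2.Uni.CT ({0, d'} : Finset ℕ) := by
    unfold S2 Pool.Agent.H387R2.Uni.CT Pool.Agent.H387R2.Uni.locT Pool.Agent.H387R2.Uni.nuT
    rw [card_pair (by omega)]
  have h1 : ∑ ξ ∈ Fintype.piFinset (fun j : Fin k => σ j), ∏ j : Fin k, P j (ξ j) = 1 :=
    Pool.Agent.K9h59.OM.wt_sum hD
  have h0 : ∀ ξ ∈ Fintype.piFinset (fun j : Fin k => σ j), 0 ≤ ∏ j : Fin k, P j (ξ j) :=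
    Pool.Agent.K9h59.OM.wt_nonneg hD
  obtain ⟨E, hE⟩ : ∃ E : (Fin k → ℕ) → Prop, E = fun ξ : Fin k → ℕ => 0 < S3 d' (shift b w c ξ) ∧
      |R3 x d' A (shift b w c ξ) - R2 x d' A| ≤ ε := ⟨_, rfl⟩
  rw [← hE]
  unfold Prob
  have h4 := sum_filter_add_sum_filter_not (Fintype.piFinset (fun j : Fin k => σ j)) E (fun ξ => ∏ j : Fin k, P j (ξ j))
  rw [h1] at h4
  have h5 : ∑ ξ ∈ (Fintype.piFinset (fun j : Fin k => σ j)).filter (fun ξ => ¬ E ξ), ∏ j : Fin k, P j (ξ j) ≤ ε := by
    refine le_trans (sum_le_sum_of_subset_of_nonneg ?_ fun ξ hξ _ => h0 ξ (mem_filter.1 hξ).1) h3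
    intro ξ hξ
    rw [mem_filter] at hξ ⊢
    refine ⟨hξ.1, ?_⟩
    by_cases h6 : shift b w c ξ ∈ ({0, d'} : Finset ℕ)
    · exact Or.inl h6
    · right
      have h7 : shift b w c ξ ≠ 0 ∧ shift b w c ξ ≠ d' := by
        simpa only [mem_insert, mem_singleton, not_or] using h6
      have h8 := hξ.2
      rw [hE] at h8
      simp only at h8
      unfold R3 R2 at h8
      rw [hS3 _ h7.1 h7.2, hS2] at h8
      exact h8
  linarith

end Pool.Agent.Results.MP_1039f5_nt.RandomDigitShifts
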