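import Mathlib
import Pool.Agent.K9h13.FH.Fin
import Pool.Agent.K9h13.FS.Max

/-!
# Prime triples of the right order of magnitude for the proportion `25 / 324` of all pairs `(d', d)`,
# and of the triples of every log-thick set of shifts

Let `R(x; d', d) = π₃(x, d', d) (log x) ^ 3 / (S(0, d', d) x)` be the normalised count of the question. For all
`ε, λ, η > 0` there is `κ > 0` such that for all large `x`:

* for ALL `D` with `λ log x ≤ D ≤ x / 8` (for example `D = (log x) ^ 2`): among the pairs of even numbers
  `2 ≤ d' < d ≤ D`, each counted with the weight `(D - d) S(0, d', d)` (the singular series times the number of the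
  translates of `{0, d', d}` in `[1, D]`), those with `R(x; d', d) ≥ κ` have a proportion of at least
  `(5 / 18) ^ 2 - ε = 25 / 324 - ε`;
* for EVERY set `A ⊆ [0, x / 8]` of integers which has at least `η b log x` elements, where `b` is the number of the
  intervals `[j log x, (j + 1) log x)` that contain elements of `A`: the sum of `S(0, c - b, c - a)` over the triples
  `a < b < c` of `A` with `R(x; c - b, c - a) ≥ κ` is at least `25 / 324 - ε` times the larger one of the two numbers
  `|A| ^ 3 / 6` and (the full sum) `∑ S(0, c - b, c - a)` over all the triples `a < b < c` of `A`.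

Proof. The coloured Maynard-Tao theorem of the starting files (`Pool.Agent.Y827.RO.lamR0`): in every admissible family
of `T` classes of `K` shifts there are `5 T / 18` classes from which one can choose shifts that are simultaneously prime
for a proportion `≫ (log N) ^ (-T K)` of the `n` at which all shifts are free of small primes. For MOST configurations
of shifts in a log-thick set `V` every three of the chosen shifts have the right order of magnitude, since the triples
with few prime translates contribute little to the sum over all configurations: by Cauchy-Schwarz and bounds for the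
moments of the number of the `v ∈ V` for which `n + v` has no small prime factors; and the singular series is bounded
for most triples, as the average of `∑ 1 / p` over the prime factors of the differences of the elements of two intervals
of length `log x` is bounded. The starting files contain the first step for the multiples of a fixed number (projects
`Pool.Agent.N646.RO`, `Pool.Agent.N646.TP` by helper646 and his co-authors, used there for almost cliques and linear
equations); here it is done for arbitrary log-thick `V`, which allows `V` to be the set of the `a ∈ A` with `ν + a` prime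
to the product `W` of the small primes. The combinatorial theorem of `Pool.Agent.W25.QL` (duality of fractional
covers; here for most configurations) gives `(5 / 18) ^ 2 |V| ^ 3` good triples, and the average over all `ν` modulo
`W` gives the weights `S(0, d', d)`. The comparison with the full sum uses that the average over the pairs of elements of
`A` of the contribution of the primes `> y` to the singular series is `O(1 / y)` (project `Pool.Agent.K9h13.FS`, with
leaves by helper4, helper7, helper62, helper71, helper82, helper98 and helper99).
-/

set_option autoImplicit false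

namespace Pool.Agent.Results.MP_1039f5_nt.RightOrderProportion

open Finset

/-- the singular series of `{0, d', d}` -/
noncomputable def S (d' d : ℕ) : ℝ := ∏' p : Nat.Primes,
  ((1 - ((((({0, d', d} : Finset ℕ).image (fun n => n % (p : ℕ))).card : ℕ) : ℝ) / ((p : ℕ) : ℝ)))
    / (1 - 1 / ((p : ℕ) : ℝ)) ^ 3)

/-- the number of primes `p ≤ x` with `p - d`, `p - d'` prime -/
noncomputable def pi3 (x : ℝ) (d' d : ℕ) : ℕ :=
  ((range (⌊x⌋₊ + 1)).filter (fun p => p.Prime ∧ (p - d).Prime ∧ (p - d').Prime)).card

/-- the normalised count -/
noncomputable def R (x : ℝ) (d' d : ℕ) : ℝ := (pi3 x d' d : ℝ) * (Real.log x) ^ 3 / (S d' d * x)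

/-- the pairs of even numbers `2 ≤ d' < d ≤ D` -/
def pairs (D : ℕ) : Finset (ℕ × ℕ) :=
  (Icc 2 D ×ˢ Icc 2 D).filter (fun v => Even v.1 ∧ Even v.2 ∧ v.1 < v.2)

/-- the number of the intervals `[j log x, (j + 1) log x)` which contain elements of `A` -/
noncomputable def blocks (x : ℝ) (A : Finset ℕ) : ℕ := (A.image (fun a : ℕ => ⌊(a : ℝ) / Real.log x⌋₊)).card

open Classical in
/-- **The normalised count is at least `κ` for the proportion `25 / 324` of the pairs, and of the triples of every
log-thick set.** -/
theorem result (ε lam η : ℝ) (hε : 0 < ε) (hlam : 0 < lam) (hη : 0 < η) :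
    ∃ κ : ℝ, 0 < κ ∧ ∃ X : ℝ, ∀ x : ℝ, X ≤ x →
      (∀ D : ℕ, lam * Real.log x ≤ D → 8 * (D : ℝ) ≤ x →
        (25 / 324 - ε) * ∑ v ∈ pairs D, ((D : ℝ) - v.2) * S v.1 v.2 ≤
          ∑ v ∈ (pairs D).filter (fun v => κ ≤ R x v.1 v.2), ((D : ℝ) - v.2) * S v.1 v.2) ∧
      ∀ A : Finset ℕ, (∀ a ∈ A, 8 * (a : ℝ) ≤ x) → η * (blocks x A * Real.log x) ≤ A.card →
        (25 / 324 - ε) * max ((A.card : ℝ) ^ 3 / 6)
            (∑ u ∈ (A ×ˢ A ×ˢ A).filter (fun u => u.1 < u.2.1 ∧ u.2.1 < u.2.2),
              S (u.2.2 - u.2.1) (u.2.2 - u.1)) ≤
          ∑ u ∈ (A ×ˢ A ×ˢ A).filter (fun u => u.1 < u.2.1 ∧ u.2.1 < u.2.2 ∧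
              κ ≤ R x (u.2.2 - u.2.1) (u.2.2 - u.1)), S (u.2.2 - u.2.1) (u.2.2 - u.1) :=
  Pool.Agent.K9h13.FS.trMax Pool.Agent.K9h13.FE.sBRM (Pool.Agent.K9h13.FE.sHITM 2)
    (Pool.Agent.K9h13.FH.tHITM 2) ε hε lam η hlam hη

end Pool.Agent.Results.MP_1039f5_nt.RightOrderProportion
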