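import Mathlib
import Pool.Agent.K9h54.TF.Tri
import Pool.Agent.K9h29.SS.Fw

/-!
# Pairs to triples when the new shift is a random number of small collision probability

Let `V` be a random natural number (with finitely many values). Its collision probability of order `s` is the
probability of `V_1 + ⋯ + V_s = V'_1 + ⋯ + V'_s` for independent copies. If the values are at most `x` then it is at least
about `1 / x`. We consider ALL random numbers whose collision probability of some fixed order `s` is not larger than
this by more than a power of `log x`, and whose residue classes modulo the numbers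
`q ≤ exp ((log log x) ^ 3)` without small prime factors are uniformly distributed, up to `exp (-(log x) ^ δ)`; more
generally only the sum `V + V'` with another independent random number `V'`, the law of which is arbitrary, has to be
uniformly distributed in residue classes.

Let `ε > 0`, let `w` be large, `W` the product of the primes up to `w`, let `x` be large, let `d'` be ANY even
number, `2 ≤ d' ≤ x`, `A` ANY set of primes `p ≤ x` for which `p - d'` is prime, and `c ≥ 0` an integer with
`W ∣ c (c - d')`, for instance `c = 0`. The theorem says: for the random shift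

`d = c + W (V + V')`,

the values of which are supposed to be at most `x / (log x) ^ 2`, with probability at least `1 - ε` the number `d` is
different from `0` and `d'`, the singular series `S(0, d', d)` is positive and the normalised count

`#{p ∈ A : p - d prime} (log x) ^ 3 / (S(0, d', d) x)`

of the triples of `A` differs by at most `ε` from the normalised count `#A (log x) ^ 2 / (S(0, d') x)` of the pairs.

If `A` is the set of all prime pairs then these are the `R(x; d', d)` of the question and the corresponding `R(x; d')`: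
for every even `d'`, `R(x; d', d) = R(x; d') + o(1)` for almost all `d` of such a family, although nothing is known about
`R(x; d')`.

The second part is the case in which `V` is uniformly distributed in an ARBITRARY set `S` of small additive energy
(the number `E_s(S)` of the solutions of `f_1 + ⋯ + f_s = g_1 + ⋯ + g_s` in `S` is at most `|S| ^ (2 s) (log x) ^ C / x`)
and `V'` is uniformly distributed in `0 ≤ l < L`, where `L ≥ exp ((log x) ^ δ)` can be smaller than every power of `x`.
Examples of such `S` are

* all sets with at least `x / (log x) ^ C` elements (`s = 1`),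
* the squares and all Sidon sets with at least `√x / (log x) ^ C` elements (`s = 2`),
* the sets with about `x ^ (1 / s)` elements, all sums of `s` of which are different; so `S` can be as thin as
  `x ^ η` for any given `η > 0`.

Nothing is assumed about the distribution of `S` in residue classes or in intervals.

The starting theorem `MP_e87c7d_nt.ArbitraryArguments` (with `k = 1`) expresses the number of the `p ∈ A` with `p - d` prime,
for almost all `d` of a family of small energy, by the number of the `p ∈ A` for which `p - d` has no prime factor up to a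
power of `log x`; for an arbitrary set `A` of prime pairs this number is not known for any single `d`. Here it is evaluated
for almost all `d`.

Proof: the primes in `A - d` can be replaced by the integers without small prime factors on average over `V`, since by
duality this is a question about the mean value over the circle of `|Λ^ - Λ_z^|² |E (± e(V W θ))|²`, where the
second factor is large on a thin set only (by the collision probability), on which the von Mangoldt function minus its
sieve model is small by Vinogradov's and Page's theorems. The elements of `A - d` without small prime factors are counted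
with high probability by a second moment and by Brun's sieve.
-/

set_option autoImplicit false

namespace Pool.Agent.Results.MP_1039f5_nt.SparseShifts

open Finset

/-- the singular series of `{0, d', d}` -/
noncomputable def S3 (d' d : ℕ) : ℝ := ∏' p : Nat.Primes,
  ((1 - ((((({0, d', d} : Finset ℕ).image (fun n => n % (p : ℕ))).card : ℕ) : ℝ) / ((p : ℕ) : ℝ)))
    / (1 - 1 / ((p : ℕ) : ℝ)) ^ 3)

/-- the singular series of `{0, d'}` -/
noncomputable def S2 (d' : ℕ) : ℝ := ∏' p : Nat.Primes,
  ((1 - ((((({0, d'} : Finset ℕ).image (fun n => n % (p : ℕ))).card : ℕ) : ℝ) / ((p : ℕ) : ℝ)))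
    / (1 - 1 / ((p : ℕ) : ℝ)) ^ 2)

/-- the primes `p ≤ x` with `p - d'` prime -/
def pairs (x d' : ℕ) : Finset ℕ := (range (x + 1)).filter (fun p => p.Prime ∧ (p - d').Prime)

/-- the normalised count of the triples `p, p - d', p - d` with `p` in a set `A` of prime pairs `p, p - d'`; for
`A = pairs x d'` this is the `R(x; d', d)` of the question -/
noncomputable def R3 (x d' : ℕ) (A : Finset ℕ) (d : ℕ) : ℝ :=
  ((A.filter (fun p => (p - d).Prime)).card : ℝ) * Real.log x ^ 3 / (S3 d' d * x)

/-- the normalised count of the pairs `p, p - d'` with `p` in a set `A` of prime pairs -/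
noncomputable def R2 (x d' : ℕ) (A : Finset ℕ) : ℝ := (A.card : ℝ) * Real.log x ^ 2 / (S2 d' * x)

/-- the passage from pairs to triples: `d` is different from `0` and `d'`, the singular series is positive and the
normalised counts agree up to `ε` -/
def Good (x d' : ℕ) (A : Finset ℕ) (ε : ℝ) (d : ℕ) : Prop :=
  d ≠ 0 ∧ d ≠ d' ∧ 0 < S3 d' d ∧ |R3 x d' A d - R2 x d' A| ≤ ε

/-- the product of the primes up to `w` -/
def W (w : ℕ) : ℕ := ∏ q ∈ (Icc 1 w).filter Nat.Prime, q

/-- the shift `c + W (v + l)` -/
def shift (w c : ℕ) (ξ : ℕ × ℕ) : ℕ := c + W w * (ξ.1 + ξ.2)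

/-- `P` is the law of a random number with values in the finite set `S` -/
def IsLaw (S : Finset ℕ) (P : ℕ → ℝ) : Prop := (∀ v ∈ S, 0 ≤ P v) ∧ ∑ v ∈ S, P v = 1

/-- the collision probability of order `s`: the probability that `f 1 + ⋯ + f s = g 1 + ⋯ + g s` for independent random
numbers with the law `P` -/
noncomputable def coll (s : ℕ) (S : Finset ℕ) (P : ℕ → ℝ) : ℝ :=
  ∑ fg ∈ ((Fintype.piFinset (fun _ : Fin s => S)) ×ˢ (Fintype.piFinset (fun _ : Fin s => S))).filter
    (fun fg => ∑ i, fg.1 i = ∑ i, fg.2 i), (∏ i, P (fg.1 i)) * ∏ i, P (fg.2 i)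

/-- the sum of two independent random numbers with the laws `P` and `P'` is uniformly distributed, up to
`exp (-(log x) ^ δ)`, in the residue classes modulo all `q ≤ exp ((log log x) ^ 3)` without prime factors `≤ w` -/
def Equi (w x : ℕ) (δ : ℝ) (S S' : Finset ℕ) (P P' : ℕ → ℝ) : Prop :=
  ∀ q : ℕ, 1 ≤ q → (q : ℝ) ≤ Real.exp (Real.log (Real.log x) ^ 3) → Nat.Coprime q (W w) → ∀ a : ℕ,
    |∑ ξ ∈ (S ×ˢ S').filter (fun ξ => ξ.1 + ξ.2 ≡ a [MOD q]), P ξ.1 * P' ξ.2 - 1 / q| ≤ Real.exp (-Real.log x ^ δ)

/-- the additive energy of order `s` of `S`: the number of the pairs `(f, g)` of sequences of `s` elements of `S` with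
the same sum -/
def energy (s : ℕ) (S : Finset ℕ) : ℕ :=
  (((Fintype.piFinset (fun _ : Fin s => S)) ×ˢ (Fintype.piFinset (fun _ : Fin s => S))).filter
    (fun fg => ∑ i, fg.1 i = ∑ i, fg.2 i)).card

/-- `S` is a nonempty set of small energy of order `s` on the scale `x` -/
def Thin (s C x : ℕ) (S : Finset ℕ) : Prop :=
  S.Nonempty ∧ (energy s S : ℝ) ≤ (S.card : ℝ) ^ (2 * s) * Real.log x ^ C / x

/-- the collision probability of the uniform law on a set -/
theorem coll_unif (s : ℕ) (S : Finset ℕ) (κ : ℝ) :
    coll s S (fun _ => κ) = energy s S * (κ ^ s * κ ^ s) := by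
  unfold coll energy
  simp only [prod_const, card_univ, Fintype.card_fin]
  rw [sum_const, nsmul_eq_mul]

open Classical in
/-- **From the pairs to the triples, for random shifts of small collision probability.** -/
theorem result (s C : ℕ) (hs : 1 ≤ s) (δ : ℝ) (hδ : 0 < δ) (ε : ℝ) (hε : 0 < ε) : ∃ w0 : ℕ, ∀ w ≥ w0,
    ∃ x0 : ℕ, ∀ x ≥ x0, ∀ d' : ℕ, Even d' → 2 ≤ d' → d' ≤ x → ∀ A ⊆ pairs x d',
    ∀ c : ℕ, (W w : ℤ) ∣ (c : ℤ) * ((c : ℤ) - d') →
    -- (1) `V` and `V'` independent, `V` of small collision probability, `V + V'` equidistributed modulo small numbers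
    (∀ (S S' : Finset ℕ) (P P' : ℕ → ℝ), IsLaw S P → IsLaw S' P' → coll s S P ≤ Real.log x ^ C / x →
      Equi w x δ S S' P P' → (∀ ξ ∈ S ×ˢ S', (shift w c ξ : ℝ) ≤ x / Real.log x ^ 2) →
      ∑ ξ ∈ (S ×ˢ S').filter (fun ξ => ¬ Good x d' A ε (shift w c ξ)), P ξ.1 * P' ξ.2 ≤ ε) ∧
    -- (2) `V` uniformly distributed in any set of small energy, `V'` in a short interval
    (∀ S : Finset ℕ, Thin s C x S → ∀ L : ℕ, Real.exp (Real.log x ^ δ) ≤ L →
      (∀ v ∈ S, (shift w c (v, L) : ℝ) ≤ x / Real.log x ^ 2) →
      (((S ×ˢ range L).filter (fun ξ => ¬ Good x d' A ε (shift w c ξ))).card : ℝ) ≤ ε * (S.card * L)) := by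
  obtain ⟨w1, h⟩ := Pool.Agent.K9h29.SS.fsw s C 2 hs (by norm_num) δ hδ ε hε
  refine ⟨w1, fun w hw => ?_⟩
  obtain ⟨x1, h⟩ := h w hw
  refine ⟨max x1 3, fun x hx d' he h2 hd'x A hA c hc => ?_⟩
  have hxx1 : x1 ≤ x := (le_max_left _ _).trans hx
  have hx3 : 3 ≤ x := (le_max_right _ _).trans hx
  have hx0 : (0 : ℝ) < x := by exact_mod_cast (by omega : 0 < x)
  have hl0 : 0 < Real.log x := Real.log_pos (by exact_mod_cast (by omega : 1 < x))
  have hcard : ∀ d, d ≠ 0 → d ≠ d' → (insert d ({0, d'} : Finset ℕ)).card = 3 := by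
    intro d hd0 hdd
    rw [card_insert_of_notMem (by simp [hd0, hdd]), card_pair (by omega)]
  have hset : ∀ d, ({0, d', d} : Finset ℕ) = insert d ({0, d'} : Finset ℕ) := by
    intro d
    ext a
    simp only [mem_insert, mem_singleton]
    tauto
  have hS3 : ∀ d, d ≠ 0 → d ≠ d' →
      S3 d' d = Pool.Agent.H387R2.Uni.CT (insert d ({0, d'} : Finset ℕ)) := by
    intro d hd0 hdd
    unfold S3 Pool.Agent.H387R2.Uni.CT Pool.Agent.H387R2.Uni.locT Pool.Agent.H387R2.Uni.nuT
    rw [hcard d hd0 hdd, hset d]
  have hA1 : A ⊆ Icc 1 x := by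
    intro n hn
    have g1 := mem_filter.1 (hA hn)
    have g2 := mem_range.1 g1.1
    rw [mem_Icc]
    exact ⟨g1.2.1.pos, by omega⟩
  have h3 := h x hxx1 {0, d'} (card_pair (by omega)) (Pool.Agent.K9h54.TF.adm_pair he)
    (by simpa using hd'x) A hA1 (by
      intro n hn h hh
      have g1 := (mem_filter.1 (hA hn)).2
      rw [mem_insert, mem_singleton] at hh
      rcases hh with rfl | rfl
      · rw [Nat.sub_zero]
        exact g1.1
      · exact g1.2) c (Pool.Agent.K9h54.TF.cov_pair hc)
  have hsh : ∀ ξ : ℕ × ℕ, c + (∏ q ∈ Pool.Agent.H373R2.T7.pz w, q) * (ξ.1 + ξ.2) = shift w c ξ :=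
    fun ξ => rfl
  simp only [hsh] at h3
  have hS2 : S2 d' = Pool.Agent.H387R2.Uni.CT ({0, d'} : Finset ℕ) := by
    unfold S2 Pool.Agent.H387R2.Uni.CT Pool.Agent.H387R2.Uni.locT Pool.Agent.H387R2.Uni.nuT
    rw [card_pair (by omega)]
  have key : ∀ (S S' : Finset ℕ) (P P' : ℕ → ℝ), IsLaw S P → IsLaw S' P' → coll s S P ≤ Real.log x ^ C / x →
      Equi w x δ S S' P P' → (∀ ξ ∈ S ×ˢ S', (shift w c ξ : ℝ) ≤ x / Real.log x ^ 2) →
      ∑ ξ ∈ (S ×ˢ S').filter (fun ξ => ¬ Good x d' A ε (shift w c ξ)), P ξ.1 * P' ξ.2 ≤ ε := by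
    intro S S' P P' hP hP' hco heq hr
    have hco' : Pool.Agent.K9h29.SS.coll s S P * x ≤ Real.log x ^ C := by
      rwa [le_div_iff₀ hx0] at hco
    have h4 := h3 S P hP.1 hP.2 hco' S' P' hP'.1 hP'.2 heq (by
      intro ξ hξ
      have g1 := hr ξ hξ
      rwa [le_div_iff₀ (by positivity)] at g1)
    refine le_trans ?_ h4
    apply sum_le_sum_of_subset_of_nonneg
    · intro ξ hξ
      rw [mem_filter] at hξ ⊢
      refine ⟨hξ.1, ?_⟩
      by_cases h6 : shift w c ξ ∈ ({0, d'} : Finset ℕ)
      · exact Or.inl h6
      · right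
        have h7 : shift w c ξ ≠ 0 ∧ shift w c ξ ≠ d' := by
          simpa only [mem_insert, mem_singleton, not_or] using h6
        have h8 := hξ.2
        unfold Good R3 R2 at h8
        rw [hS3 _ h7.1 h7.2, hS2] at h8
        exact fun h9 => h8 ⟨h7.1, h7.2, h9⟩
    · intro ξ hξ _
      have g1 := mem_product.1 (mem_filter.1 hξ).1
      exact mul_nonneg (hP.1 _ g1.1) (hP'.1 _ g1.2)
  refine ⟨key, fun S hS L hL hr => ?_⟩
  have hL0 : (0 : ℝ) < L := lt_of_lt_of_le (Real.exp_pos _) hL
  have hL1 : 1 ≤ L := by exact_mod_cast hL0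
  have hS0 : (0 : ℝ) < S.card := by exact_mod_cast hS.1.card_pos
  have hfin := key S (range L) (fun _ => 1 / (S.card : ℝ)) (fun _ => 1 / (L : ℝ))
    ⟨fun _ _ => by positivity, by rw [sum_const, nsmul_eq_mul]; field_simp⟩
    ⟨fun _ _ => by positivity, by rw [sum_const, card_range, nsmul_eq_mul]; field_simp⟩
    (by
      rw [coll_unif]
      have h5 := hS.2
      have h6 : (energy s S : ℝ) * ((1 / (S.card : ℝ)) ^ s * (1 / (S.card : ℝ)) ^ s) =
          energy s S / (S.card : ℝ) ^ (2 * s) := by
        rw [two_mul, pow_add, one_div, inv_pow]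
        field_simp
      rw [h6, div_le_iff₀ (by positivity)]
      refine h5.trans (le_of_eq ?_)
      ring)
    (by
      intro q hq _ _ a
      have h5 := Pool.Agent.K9h29.SS.unif S hS.1 L hL1 q a hq
      have h6 : ∑ ξ ∈ (S ×ˢ range L).filter (fun ξ => ξ.1 + ξ.2 ≡ a [MOD q]), (1 / (S.card : ℝ)) * (1 / (L : ℝ)) =
          ∑ ξ ∈ (S ×ˢ range L).filter (fun ξ => ξ.1 + ξ.2 ≡ a [MOD q]), (1 / ((S.card : ℝ) * L)) := by
        apply sum_congr rfl
        intro _ _
        rw [div_mul_div_comm, one_mul]
      simp only
      rw [h6]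
      refine h5.trans ?_
      rw [Real.exp_neg, ← one_div]
      exact one_div_le_one_div_of_le (Real.exp_pos _) hL)
    (by
      intro ξ hξ
      rw [mem_product, mem_range] at hξ
      refine le_trans ?_ (hr ξ.1 hξ.1)
      have g2 : shift w c ξ ≤ shift w c (ξ.1, L) := by
        unfold shift
        apply Nat.add_le_add_left
        apply Nat.mul_le_mul_left
        omega
      exact_mod_cast g2)
  rw [sum_const, nsmul_eq_mul] at hfin
  have h7 : (1 / (S.card : ℝ)) * (1 / (L : ℝ)) = 1 / ((S.card : ℝ) * L) := by
    rw [div_mul_div_comm, one_mul]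
  rw [h7, mul_one_div, div_le_iff₀ (by positivity)] at hfin
  exact hfin

end Pool.Agent.Results.MP_1039f5_nt.SparseShifts
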